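import Mathlib
import Pool.Agent.H94.Phases

/-!
Dependency chains for the static order schedule with buffers of size one, and the bound on their
weight when no window of `r` hops is light.
-/

set_option autoImplicit false

namespace Pool.Agent.Lev25

open Finset Pool.Agent.H94

variable {k : ℕ} (G : PD k) (N : Fin k → ℕ → ℕ)

/-- The static order given by the nominal times `N`, ties by index. -/
def Bf (i : Fin k) (x : ℕ) (j : Fin k) (y : ℕ) : Prop :=
  N i x < N j y ∨ (N i x = N j y ∧ i < j)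

lemma Bf_total {i j : Fin k} (x y : ℕ) (h : i ≠ j) : Bf N i x j y ∨ Bf N j y i x := by
  unfold Bf
  rcases lt_trichotomy (N i x) (N j y) with h1 | h1 | h1
  · exact Or.inl (Or.inl h1)
  · rcases lt_or_gt_of_ne h with h2 | h2
    · exact Or.inl (Or.inr ⟨h1, h2⟩)
    · exact Or.inr (Or.inr ⟨h1.symm, h2⟩)
  · exact Or.inr (Or.inl h1)

/-- Dependency chains ending in the event that packet `i` crosses its edge number `x`, with
their weights. -/
inductive Ch : Fin k → ℕ → ℕ → Prop
  | nil (i : Fin k) (x : ℕ) : x < G.m i → Ch i x 0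
  | back {i : Fin k} {x w : ℕ} : Ch i x w → x + 1 < G.m i → Ch i (x + 1) (w + 1)
  | pass {i j : Fin k} {x y w : ℕ} : Ch j (y + 1) w → G.Same j y i x → Bf N j y i x → Ch i x w
  | last {i j : Fin k} {x y w : ℕ} : Ch j y w → G.Same j y i x → Bf N j y i x → Ch i x (w + 1)

/-- The geometric part of a hop. -/
structure GHop (s s' : Fin k × ℕ) (b t : ℕ) : Prop where
  hb : b ≤ s.2
  ht : t ≤ s'.2
  ht1 : t ≤ 1
  same : G.Same s'.1 (s'.2 - t) s.1 (s.2 - b)

/-- A hop. -/
structure Hop (s s' : Fin k × ℕ) (b d t : ℕ) : Prop extends GHop G s s' b t where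
  eq : N s'.1 (s'.2 - t) + d = N s.1 (s.2 - b)
  lt : d = 0 → s'.1 < s.1

variable {G N}

lemma Ch.lt {i : Fin k} {x w : ℕ} (h : Ch G N i x w) : x < G.m i := by
  cases h with
  | nil _ _ h => exact h
  | back _ h => exact h
  | pass _ h _ => exact h.2.1
  | last _ h _ => exact h.2.1

/-- A sequence of hops. -/
structure Seg (G : PD k) (N : Fin k → ℕ → ℕ) (n : ℕ) (s : ℕ → Fin k × ℕ) (b d t : ℕ → ℕ) :
    Prop where
  lt : ∀ l ≤ n, (s l).2 < G.m (s l).1
  hop : ∀ l < n, Hop G N (s l) (s (l + 1)) (b l) (d l) (t l)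

/-- Put a first element in front. -/
def pre {α : Type*} (a : α) (f : ℕ → α) : ℕ → α
  | 0 => a
  | n + 1 => f n

lemma Seg.cons {n : ℕ} {s : ℕ → Fin k × ℕ} {b d t : ℕ → ℕ} (h : Seg G N n s b d t)
    {e : Fin k × ℕ} (he : e.2 < G.m e.1) {b0 d0 t0 : ℕ} (hh : Hop G N e (s 0) b0 d0 t0) :
    Seg G N (n + 1) (pre e s) (pre b0 b) (pre d0 d) (pre t0 t) := by
  constructor
  · intro l hl
    cases l with
    | zero => exact he
    | succ l => exact h.lt l (by omega)
  · intro l hl
    cases l with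
    | zero => exact hh
    | succ l => exact h.hop l (by omega)

lemma Ch.exists_seg {i : Fin k} {x w : ℕ} (h : Ch G N i x w) :
    ∃ (n : ℕ) (s : ℕ → Fin k × ℕ) (b d t : ℕ → ℕ), Seg G N n s b d t ∧ s 0 = (i, x) ∧
      w ≤ (∑ l ∈ range n, (b l + 1)) + (s n).2 := by
  induction h with
  | nil i x h =>
    refine ⟨0, fun _ => (i, x), fun _ => 0, fun _ => 0, fun _ => 0, ⟨?_, ?_⟩, rfl, ?_⟩
    · intro l _; exact h
    · intro l hl; omega
    · simp
  | @back i x w h hx ih =>
    obtain ⟨n, s, b, d, t, hs, h0, hw⟩ := ih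
    cases n with
    | zero =>
      refine ⟨0, fun _ => (i, x + 1), b, d, t, ⟨?_, ?_⟩, rfl, ?_⟩
      · intro l _; exact hx
      · intro l hl; omega
      · rw [h0] at hw
        simpa using hw
    | succ n =>
      refine ⟨n + 1, pre (i, x + 1) fun l => s (l + 1), pre (b 0 + 1) fun l => b (l + 1),
        d, t, ⟨?_, ?_⟩, rfl, ?_⟩
      · intro l hl
        cases l with
        | zero => exact hx
        | succ l => exact hs.lt (l + 1) hl
      · intro l hl
        cases l with
        | zero =>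
          have h1 := hs.hop 0 (by omega)
          rw [h0] at h1
          have h2 := h1.hb
          have h3 := h1.eq
          have h4 := h1.same
          have h5 := h1.lt
          simp only at h2 h3 h4 h5
          have e : x + 1 - (b 0 + 1) = x - b 0 := by omega
          refine ⟨⟨?_, h1.ht, h1.ht1, ?_⟩, ?_, h5⟩
          · show b 0 + 1 ≤ x + 1
            omega
          · show G.Same (s 1).1 ((s 1).2 - t 0) i (x + 1 - (b 0 + 1))
            rw [e]
            exact h4
          · show N (s 1).1 ((s 1).2 - t 0) + d 0 = N i (x + 1 - (b 0 + 1))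
            rw [e]
            exact h3
        | succ l => exact hs.hop (l + 1) hl
      · rw [Finset.sum_range_succ'] at hw ⊢
        have e1 : ∑ l ∈ range n, (pre (b 0 + 1) (fun l => b (l + 1)) (l + 1) + 1)
            = ∑ l ∈ range n, (b (l + 1) + 1) := rfl
        have e2 : pre (b 0 + 1) (fun l => b (l + 1)) 0 = b 0 + 1 := rfl
        have e3 : pre (i, x + 1) (fun l => s (l + 1)) (n + 1) = s (n + 1) := rfl
        rw [e1, e2, e3]
        omega
  | @pass i j x y w h hs hb ih =>
    obtain ⟨n, s, b, d, t, hseg, h0, hw⟩ := ih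
    have hN : N j y ≤ N i x := by rcases hb with h | h <;> omega
    refine ⟨n + 1, pre (i, x) s, pre 0 b, pre (N i x - N j y) d, pre 1 t,
      hseg.cons hs.2.1 ?_, rfl, ?_⟩
    · rw [h0]
      refine ⟨⟨Nat.zero_le _, ?_, le_rfl, ?_⟩, ?_, ?_⟩
      · show 1 ≤ y + 1
        omega
      · show G.Same j (y + 1 - 1) i (x - 0)
        exact hs
      · show N j (y + 1 - 1) + (N i x - N j y) = N i (x - 0)
        rw [Nat.add_sub_cancel, Nat.sub_zero]
        omega
      · intro hd
        show j < i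
        rcases hb with h | h
        · omega
        · exact h.2
    · rw [Finset.sum_range_succ']
      have e1 : ∑ l ∈ range n, (pre 0 b (l + 1) + 1) = ∑ l ∈ range n, (b l + 1) := rfl
      have e3 : pre (i, x) s (n + 1) = s n := rfl
      rw [e1, e3]
      omega
  | @last i j x y w h hs hb ih =>
    obtain ⟨n, s, b, d, t, hseg, h0, hw⟩ := ih
    have hN : N j y ≤ N i x := by rcases hb with h | h <;> omega
    refine ⟨n + 1, pre (i, x) s, pre 0 b, pre (N i x - N j y) d, pre 0 t,
      hseg.cons hs.2.1 ?_, rfl, ?_⟩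
    · rw [h0]
      refine ⟨⟨Nat.zero_le _, Nat.zero_le _, Nat.zero_le _, ?_⟩, ?_, ?_⟩
      · show G.Same j (y - 0) i (x - 0)
        exact hs
      · show N j (y - 0) + (N i x - N j y) = N i (x - 0)
        rw [Nat.sub_zero, Nat.sub_zero]
        omega
      · intro hd
        show j < i
        rcases hb with h | h
        · omega
        · exact h.2
    · rw [Finset.sum_range_succ']
      have e1 : ∑ l ∈ range n, (pre 0 b (l + 1) + 1) = ∑ l ∈ range n, (b l + 1) := rfl
      have e2 : pre 0 b 0 = 0 := rfl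
      have e3 : pre (i, x) s (n + 1) = s n := rfl
      rw [e1, e2, e3]
      omega

variable (G N) in
/-- The nominal times go up by at least one and at most `K` per step. -/
structure Inc (K : ℕ) : Prop where
  lo : ∀ i x, x + 1 < G.m i → N i x + 1 ≤ N i (x + 1)
  hi : ∀ i x, x + 1 < G.m i → N i (x + 1) ≤ N i x + K

lemma Inc.back {K : ℕ} (h : Inc G N K) {i : Fin k} {x b : ℕ} (hx : x < G.m i) (hb : b ≤ x) :
    N i (x - b) + b ≤ N i x := by
  induction b with
  | zero => simp
  | succ b ih =>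
    have h1 := ih (by omega)
    have h2 := h.lo i (x - (b + 1)) (by omega)
    have e : x - (b + 1) + 1 = x - b := by omega
    rw [e] at h2
    omega

lemma Inc.last {K : ℕ} (h : Inc G N K) {i : Fin k} {x t : ℕ} (hx : x < G.m i) (ht : t ≤ x)
    (ht1 : t ≤ 1) : N i x ≤ N i (x - t) + K := by
  rcases Nat.eq_zero_or_pos t with h0 | h0
  · rw [h0, Nat.sub_zero]
    omega
  · have h1 : t = 1 := by omega
    have h2 := h.hi i (x - 1) (by omega)
    rw [Nat.sub_add_cancel (by omega)] at h2
    rw [h1]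
    exact h2

/-- The loss of nominal time in the backward part of hop number `a`. -/
def bet (N : Fin k → ℕ → ℕ) (s : ℕ → Fin k × ℕ) (b : ℕ → ℕ) (a : ℕ) : ℕ :=
  N (s a).1 (s a).2 - N (s a).1 ((s a).2 - b a)

/-- The gain of nominal time in the forward part of hop number `a`. -/
def gam (N : Fin k → ℕ → ℕ) (s : ℕ → Fin k × ℕ) (t : ℕ → ℕ) (a : ℕ) : ℕ :=
  N (s (a + 1)).1 (s (a + 1)).2 - N (s (a + 1)).1 ((s (a + 1)).2 - t a)

lemma Seg.bet_eq {K n : ℕ} (hI : Inc G N K) {s : ℕ → Fin k × ℕ} {b d t : ℕ → ℕ}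
    (h : Seg G N n s b d t) {a : ℕ} (ha : a < n) :
    N (s a).1 ((s a).2 - b a) + bet N s b a = N (s a).1 (s a).2 ∧ b a ≤ bet N s b a := by
  have h1 := hI.back (h.lt a (by omega)) (h.hop a ha).hb
  unfold bet
  omega

lemma Seg.gam_eq {K n : ℕ} (hI : Inc G N K) {s : ℕ → Fin k × ℕ} {b d t : ℕ → ℕ}
    (h : Seg G N n s b d t) {a : ℕ} (ha : a < n) :
    N (s (a + 1)).1 ((s (a + 1)).2 - t a) + gam N s t a = N (s (a + 1)).1 (s (a + 1)).2 ∧
      gam N s t a ≤ K := by
  have h1 := hI.back (h.lt (a + 1) (by omega)) (h.hop a ha).ht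
  have h2 := hI.last (h.lt (a + 1) (by omega)) (h.hop a ha).ht (h.hop a ha).ht1
  unfold gam
  omega

/-- The nominal times along a segment. -/
lemma Seg.eq {K n : ℕ} (hI : Inc G N K) {s : ℕ → Fin k × ℕ} {b d t : ℕ → ℕ}
    (h : Seg G N n s b d t) (l : ℕ) (hl : l ≤ n) :
    N (s l).1 (s l).2 + ∑ a ∈ range l, (bet N s b a + d a)
      = N (s 0).1 (s 0).2 + ∑ a ∈ range l, gam N s t a := by
  induction l with
  | zero => simp
  | succ l ih =>
    have h1 := ih (by omega)
    have h2 := (h.hop l (by omega)).eq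
    have h3 := (h.bet_eq hI (a := l) (by omega)).1
    have h4 := (h.gam_eq hI (a := l) (by omega)).1
    rw [Finset.sum_range_succ, Finset.sum_range_succ]
    omega

lemma Seg.sum_gam {K n : ℕ} (hI : Inc G N K) {s : ℕ → Fin k × ℕ} {b d t : ℕ → ℕ}
    (h : Seg G N n s b d t) (l : ℕ) (hl : l ≤ n) : ∑ a ∈ range l, gam N s t a ≤ l * K := by
  calc _ ≤ ∑ a ∈ range l, K := Finset.sum_le_sum fun a ha =>
        (h.gam_eq hI (a := a) (by have := Finset.mem_range.mp ha; omega)).2
    _ = l * K := by simp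

lemma Seg.sum_b {K n : ℕ} (hI : Inc G N K) {s : ℕ → Fin k × ℕ} {b d t : ℕ → ℕ}
    (h : Seg G N n s b d t) (l : ℕ) (hl : l ≤ n) :
    ∑ a ∈ range l, b a ≤ ∑ a ∈ range l, bet N s b a :=
  Finset.sum_le_sum fun a ha =>
    (h.bet_eq hI (a := a) (by have := Finset.mem_range.mp ha; omega)).2

lemma Seg.shift {n : ℕ} {s : ℕ → Fin k × ℕ} {b d t : ℕ → ℕ} (h : Seg G N n s b d t) (a m : ℕ)
    (hl : a + m ≤ n) :
    Seg G N m (fun l => s (a + l)) (fun l => b (a + l)) (fun l => d (a + l))
      (fun l => t (a + l)) := by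
  constructor
  · intro l hl'
    exact h.lt (a + l) (by omega)
  · intro l hl'
    exact h.hop (a + l) (by omega)

/-- The bound on the weights of the chains. -/
lemma Ch.bound {K r M : ℕ} (hK : 1 ≤ K) (hr : 1 ≤ r) (hI : Inc G N K)
    (hno : ∀ (s : ℕ → Fin k × ℕ) (b d t : ℕ → ℕ), Seg G N r s b d t →
      2 * K * r < ∑ a ∈ range r, (bet N s b a + d a))
    (hN : ∀ i x, x < G.m i → N i x ≤ M) {i : Fin k} {x w : ℕ} (h : Ch G N i x w) :
    w ≤ 3 * M + 4 * K * r := by
  obtain ⟨n, s, b, d, t, hs, h0, hw⟩ := h.exists_seg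
  have key : ∀ q, q * r ≤ n → 2 * K * (q * r) ≤ ∑ a ∈ range (q * r), (bet N s b a + d a) := by
    intro q
    induction q with
    | zero => intro _; simp
    | succ q ih =>
      intro hq
      have e : (q + 1) * r = q * r + r := by ring
      have h1 := ih (by rw [e] at hq; omega)
      have h2 : 2 * K * r < ∑ a ∈ range r, (bet N s b (q * r + a) + d (q * r + a)) :=
        hno _ _ _ _ (hs.shift (q * r) r (by rw [e] at hq; omega))
      rw [e, Finset.sum_range_add, Nat.mul_add]
      omega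
  have h1 := key (n / r) (Nat.div_mul_le_self n r)
  have h2 : n < n / r * r + r := by
    have := Nat.div_add_mod n r
    have := Nat.mod_lt n hr
    have e : r * (n / r) = n / r * r := Nat.mul_comm _ _
    omega
  have h3 : ∑ a ∈ range (n / r * r), (bet N s b a + d a) ≤
      ∑ a ∈ range n, (bet N s b a + d a) :=
    Finset.sum_le_sum_of_subset (Finset.range_subset_range.mpr (Nat.div_mul_le_self n r))
  have h4 := hs.eq hI n le_rfl
  have h5 := hs.sum_gam hI n le_rfl
  have h6 : N (s 0).1 (s 0).2 ≤ M := hN _ _ (hs.lt 0 (Nat.zero_le _))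
  have h7 : (s n).2 ≤ N (s n).1 (s n).2 := by
    have := hI.back (hs.lt n le_rfl) (le_refl (s n).2)
    omega
  have h8 := hs.sum_b hI n le_rfl
  have h9 : ∑ l ∈ range n, (b l + 1) = ∑ l ∈ range n, b l + n := by
    rw [Finset.sum_add_distrib]
    simp
  have h10 : ∑ a ∈ range n, (bet N s b a + d a)
      = ∑ a ∈ range n, bet N s b a + ∑ a ∈ range n, d a := Finset.sum_add_distrib
  have h11 : 2 * K * n ≤ 2 * K * (n / r * r) + 2 * K * r := by
    rw [← Nat.mul_add]
    exact Nat.mul_le_mul_left _ h2.le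
  have e1 : 2 * K * n = 2 * (n * K) := by ring
  have e2 : 4 * K * r = 2 * (2 * K * r) := by ring
  have h12 : n ≤ n * K := Nat.le_mul_of_pos_right n hK
  omega

end Pool.Agent.Lev25
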