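import Mathlib
import Pool.Agent.Lev25.Chain

/-!
The schedule defined by the dependency chains, and distinctness of the packets of a light
segment in a locally balanced family.
-/

set_option autoImplicit false

namespace Pool.Agent.Lev25

open Finset Pool.Agent.H94

variable {k : ℕ} (G : PD k) (N : Fin k → ℕ → ℕ)

/-- The schedule. -/
noncomputable def tm (i : Fin k) (x : ℕ) : ℕ := sSup {w | Ch G N i x w}

variable {G N}

section

variable {M : ℕ} (hM : ∀ i x w, Ch G N i x w → w ≤ M)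

include hM

lemma le_tm {i : Fin k} {x w : ℕ} (h : Ch G N i x w) : w ≤ tm G N i x :=
  le_csSup ⟨M, fun w hw => hM i x w hw⟩ h

lemma tm_mem {i : Fin k} {x : ℕ} (h : x < G.m i) : Ch G N i x (tm G N i x) :=
  Nat.sSup_mem (s := {w | Ch G N i x w}) ⟨0, Ch.nil i x h⟩ ⟨M, fun w hw => hM i x w hw⟩

lemma tm_next {i : Fin k} {x : ℕ} (h : x + 1 < G.m i) : tm G N i x < tm G N i (x + 1) :=
  le_tm hM (Ch.back (tm_mem hM (by omega)) h)

lemma tm_le {i : Fin k} {x : ℕ} (h : x < G.m i) : tm G N i x ≤ M :=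
  hM i x _ (tm_mem hM h)

lemma tm_bef {i j : Fin k} {x y : ℕ} (h : G.Same j y i x) (hb : Bf N j y i x) :
    tm G N j y < tm G N i x :=
  le_tm hM (Ch.last (tm_mem hM h.1) h hb)

lemma tm_bef' {i j : Fin k} {x y : ℕ} (h : G.Same j y i x) (hb : Bf N j y i x)
    (hy : y + 1 < G.m j) : tm G N j (y + 1) ≤ tm G N i x :=
  le_tm hM (Ch.pass (tm_mem hM hy) h hb)

lemma tm_ne {i j : Fin k} {x y : ℕ} (hne : i ≠ j) (h : G.Same i x j y) :
    tm G N i x ≠ tm G N j y := by
  rcases Bf_total N x y hne with hb | hb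
  · exact (tm_bef hM h hb).ne
  · exact (tm_bef hM h.symm hb).ne'

lemma tm_buf {i j : Fin k} {x y : ℕ} (hne : i ≠ j) (h : G.Same i x j y)
    (hx : x + 1 < G.m i) (hy : y + 1 < G.m j) :
    tm G N i (x + 1) ≤ tm G N j y ∨ tm G N j (y + 1) ≤ tm G N i x := by
  rcases Bf_total N x y hne with hb | hb
  · exact Or.inl (tm_bef' hM h hb hx)
  · exact Or.inr (tm_bef' hM h.symm hb hy)

end

/-- Walks along and against the labelled relation `R`: end points, length, total label. -/
inductive Walk {α : Type*} (R : α → α → ℤ → Prop) : α → α → ℕ → ℤ → Prop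
  | nil (a : α) : Walk R a a 0 0
  | fwd {a b c : α} {n : ℕ} {f g : ℤ} : Walk R a b n f → R b c g → Walk R a c (n + 1) (f + g)
  | bwd {a b c : α} {n : ℕ} {f g : ℤ} : Walk R a b n f → R c b g → Walk R a c (n + 1) (f - g)

/-- The edge number `x` of packet `i`. -/
def ed (G : PD k) (i : Fin k) (x : ℕ) : ℕ × ℕ := (G.v i x, G.v i (x + 1))

lemma ed_eq {i j : Fin k} {x y : ℕ} (h : G.Same i x j y) : ed G i x = ed G j y :=
  Prod.ext h.2.2.1 h.2.2.2

/-- Consecutive edges of a path, labelled by the increment of the nominal time. -/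
def Rel (G : PD k) (N : Fin k → ℕ → ℕ) (a b : ℕ × ℕ) (g : ℤ) : Prop :=
  ∃ i x, x + 1 < G.m i ∧ ed G i x = a ∧ ed G i (x + 1) = b ∧ g = (N i (x + 1) : ℤ) - N i x

lemma Walk.goBack {a : ℕ × ℕ} {i : Fin k} {n : ℕ} {f : ℤ} (x : ℕ) (hx : x < G.m i)
    (h : Walk (Rel G N) a (ed G i x) n f) (b : ℕ) (hb : b ≤ x) :
    Walk (Rel G N) a (ed G i (x - b)) (n + b) (f + ((N i (x - b) : ℤ) - N i x)) := by
  induction b with
  | zero => simpa using h
  | succ b ih =>
    have h1 := ih (by omega)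
    have e0 : x - (b + 1) + 1 = x - b := by omega
    have e1 : n + (b + 1) = n + b + 1 := by ring
    have e2 : f + ((N i (x - (b + 1)) : ℤ) - N i x)
        = f + ((N i (x - b) : ℤ) - N i x) - ((N i (x - b) : ℤ) - N i (x - (b + 1))) := by ring
    rw [e1, e2]
    refine h1.bwd ⟨i, x - (b + 1), by omega, rfl, ?_, ?_⟩
    · rw [e0]
    · rw [e0]

lemma Walk.goFwd {a : ℕ × ℕ} {i : Fin k} {n : ℕ} {f : ℤ} (x : ℕ)
    (h : Walk (Rel G N) a (ed G i x) n f) (c : ℕ) (hc : x + c < G.m i) :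
    Walk (Rel G N) a (ed G i (x + c)) (n + c) (f + ((N i (x + c) : ℤ) - N i x)) := by
  induction c with
  | zero => simpa using h
  | succ c ih =>
    have h1 := ih (by omega)
    have e1 : n + (c + 1) = n + c + 1 := by ring
    have e2 : f + ((N i (x + (c + 1)) : ℤ) - N i x)
        = f + ((N i (x + c) : ℤ) - N i x) + ((N i (x + c + 1) : ℤ) - N i (x + c)) := by
      rw [Nat.add_assoc x c 1]; ring
    rw [e1, e2]
    exact h1.fwd ⟨i, x + c, by omega, rfl, rfl, rfl⟩

lemma Walk.hop {s s' : Fin k × ℕ} {a : ℕ × ℕ} {b t n : ℕ} {f : ℤ} (hs : s.2 < G.m s.1)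
    (hs' : s'.2 < G.m s'.1) (h : Walk (Rel G N) a (ed G s.1 s.2) n f) (hh : GHop G s s' b t) :
    Walk (Rel G N) a (ed G s'.1 s'.2) (n + (b + t))
      (f + (((N s'.1 s'.2 : ℤ) - N s'.1 (s'.2 - t)) - ((N s.1 s.2 : ℤ) - N s.1 (s.2 - b)))) := by
  have h1 := Walk.goBack s.2 hs h b hh.hb
  have h3 := hh.ht
  rw [← ed_eq hh.same] at h1
  have h5 := Walk.goFwd (s'.2 - t) h1 t (by omega)
  have e0 : s'.2 - t + t = s'.2 := by omega
  have e1 : n + b + t = n + (b + t) := by ring
  rw [e0, e1] at h5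
  convert h5 using 1
  ring

lemma Seg.walk {K n : ℕ} (hI : Inc G N K) {s : ℕ → Fin k × ℕ} {b d t : ℕ → ℕ}
    (h : Seg G N n s b d t) (l : ℕ) (hl : l ≤ n) :
    Walk (Rel G N) (ed G (s 0).1 (s 0).2) (ed G (s l).1 (s l).2) (∑ a ∈ range l, (b a + t a))
      (∑ a ∈ range l, ((gam N s t a : ℤ) - bet N s b a)) := by
  induction l with
  | zero => simpa using Walk.nil _
  | succ l ih =>
    rw [Finset.sum_range_succ, Finset.sum_range_succ]
    have h1 := (ih (by omega)).hop (h.lt l (by omega)) (h.lt (l + 1) hl)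
      (h.hop l (by omega)).toGHop
    have h2 := (h.bet_eq hI (a := l) (by omega)).1
    have h3 := (h.gam_eq hI (a := l) (by omega)).1
    have e : ((gam N s t l : ℤ) - bet N s b l)
        = (((N (s (l + 1)).1 (s (l + 1)).2 : ℤ) - N (s (l + 1)).1 ((s (l + 1)).2 - t l))
          - ((N (s l).1 (s l).2 : ℤ) - N (s l).1 ((s l).2 - b l))) := by
      omega
    rw [e]
    exact h1

/-- The packets at the two ends of a light segment differ. -/
lemma Seg.ends_ne {K r : ℕ} (hI : Inc G N K)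
    (hbal : ∀ (a : ℕ × ℕ) (n : ℕ) (f : ℤ), Walk (Rel G N) a a n f → n ≤ (4 * K + 1) * r → f = 0)
    {l : ℕ} {s : ℕ → Fin k × ℕ} {b d t : ℕ → ℕ} (h : Seg G N l s b d t) (hl : 1 ≤ l)
    (hlr : l ≤ r) (hlight : ∑ a ∈ range l, (bet N s b a + d a) ≤ 2 * K * r) :
    (s 0).1 ≠ (s l).1 := by
  intro hp
  have hw := h.walk hI l le_rfl
  have heq := h.eq hI l le_rfl
  have hsg := h.sum_gam hI l le_rfl
  have hsb := h.sum_b hI l le_rfl
  rw [← hp] at heq hw
  have hlt := h.lt l le_rfl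
  have hlt0 := h.lt 0 (Nat.zero_le _)
  rw [← hp] at hlt
  have hst : ∑ a ∈ range l, t a ≤ r := by
    calc _ ≤ ∑ a ∈ range l, 1 := Finset.sum_le_sum fun a ha =>
          (h.hop a (Finset.mem_range.mp ha)).ht1
      _ = l := by simp
      _ ≤ r := hlr
  have hlK : l * K ≤ K * r := by
    rw [Nat.mul_comm l K]
    exact Nat.mul_le_mul_left _ hlr
  have hlen : (4 * K + 1) * r = 2 * (2 * K * r) + r := by ring
  have h2K : 2 * K * r = 2 * (K * r) := by ring
  have hzero : (∑ a ∈ range l, d a) = 0 := by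
    have e1 : (∑ a ∈ range l, (b a + t a)) = ∑ a ∈ range l, b a + ∑ a ∈ range l, t a :=
      Finset.sum_add_distrib
    have e2 : (∑ a ∈ range l, (bet N s b a + d a))
        = ∑ a ∈ range l, bet N s b a + ∑ a ∈ range l, d a := Finset.sum_add_distrib
    have e3 : (∑ a ∈ range l, ((gam N s t a : ℤ) - bet N s b a))
        = ((∑ a ∈ range l, gam N s t a : ℕ) : ℤ) - ((∑ a ∈ range l, bet N s b a : ℕ) : ℤ) := by
      rw [Finset.sum_sub_distrib]
      push_cast
      rfl
    rw [e2] at heq hlight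
    rw [e1, e3] at hw
    rcases le_total (s 0).2 (s l).2 with hle | hle
    · have h1 := Walk.goBack (s l).2 hlt hw ((s l).2 - (s 0).2) (by omega)
      have h3 := hI.back hlt (b := (s l).2 - (s 0).2) (by omega)
      have e4 : (s l).2 - ((s l).2 - (s 0).2) = (s 0).2 := by omega
      rw [e4] at h1 h3
      have h2 := hbal _ _ _ h1 (by omega)
      omega
    · have h1 := Walk.goFwd (s l).2 hw ((s 0).2 - (s l).2) (by omega)
      have h3 := hI.back hlt0 (b := (s 0).2 - (s l).2) (by omega)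
      have e4 : (s l).2 + ((s 0).2 - (s l).2) = (s 0).2 := by omega
      have e5 : (s 0).2 - ((s 0).2 - (s l).2) = (s l).2 := by omega
      rw [e4] at h1
      rw [e5] at h3
      have h2 := hbal _ _ _ h1 (by omega)
      omega
  have hd : ∀ a < l, d a = 0 := by
    intro a ha
    exact Finset.sum_eq_zero_iff.mp hzero a (Finset.mem_range.mpr ha)
  have hdec : ∀ q, q < l → (s (q + 1)).1 < (s 0).1 := by
    intro q
    induction q with
    | zero => intro hq; exact (h.hop 0 hq).lt (hd 0 hq)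
    | succ q ih =>
      intro hq
      exact ((h.hop (q + 1) hq).lt (hd (q + 1) hq)).trans (ih (by omega))
  have := hdec (l - 1) (by omega)
  rw [Nat.sub_add_cancel hl, ← hp] at this
  exact lt_irrefl _ this

/-- All packets of a light segment are distinct. -/
lemma Seg.inj {K r : ℕ} (hI : Inc G N K)
    (hbal : ∀ (a : ℕ × ℕ) (n : ℕ) (f : ℤ), Walk (Rel G N) a a n f → n ≤ (4 * K + 1) * r → f = 0)
    {s : ℕ → Fin k × ℕ} {b d t : ℕ → ℕ} (h : Seg G N r s b d t)
    (hlight : ∑ a ∈ range r, (bet N s b a + d a) ≤ 2 * K * r) (l l' : ℕ) (hl : l < l')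
    (hl' : l' ≤ r) : (s l).1 ≠ (s l').1 := by
  have h1 := h.shift l (l' - l) (by omega)
  have h2 := h1.ends_ne hI hbal (by omega) (by omega) ?_
  · simpa [Nat.add_sub_cancel' hl.le] using h2
  · refine le_trans ?_ hlight
    have e : r = l + (l' - l) + (r - l') := by omega
    have e1 : ∑ a ∈ range r, (bet N s b a + d a)
        = ∑ a ∈ range l, (bet N s b a + d a)
          + ∑ a ∈ range (l' - l), (bet N s b (l + a) + d (l + a))
          + ∑ a ∈ range (r - l'), (bet N s b (l + (l' - l) + a) + d (l + (l' - l) + a)) := by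
      conv_lhs => rw [e, Finset.sum_range_add, Finset.sum_range_add]
    rw [e1]
    have e2 : ∑ a ∈ range (l' - l),
        (bet N (fun l_1 => s (l + l_1)) (fun l_1 => b (l + l_1)) a + d (l + a))
        = ∑ a ∈ range (l' - l), (bet N s b (l + a) + d (l + a)) := rfl
    rw [e2]
    omega

end Pool.Agent.Lev25
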