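import Mathlib
import Pool.Agent.Lib.LLL94
import Pool.Agent.Lev25.Sched

/-!
The local lemma for light chains with distinct packets.
-/

set_option autoImplicit false

namespace Pool.Agent.Lev25

open Finset Pool.Agent.H94 Pool.Agent.LLL94

variable {k : ℕ} (G : PD k)

/-- Vectors of hop data. -/
abbrev Vec (K r : ℕ) := Fin r → Fin (2 * K * r + 1) × Fin (2 * K * r + 1) × Fin 2

/-- Potential light chains. -/
abbrev Pot (k D K r : ℕ) := Vec K r × (Fin (r + 1) → Fin k × Fin D)

/-- Forget the bound of the position. -/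
def st {D : ℕ} (q : Fin k × Fin D) : Fin k × ℕ := (q.1, (q.2 : ℕ))

lemma st_inj {D : ℕ} {q q' : Fin k × Fin D} (h : st q = st q') : q = q' := by
  have h1 := (Prod.ext_iff.mp h).1
  have h2 := (Prod.ext_iff.mp h).2
  exact Prod.ext h1 (Fin.ext h2)

/-- The light vectors. -/
def lightV (K r : ℕ) : Finset (Vec K r) :=
  Finset.univ.filter fun v => ∑ m, (((v m).1 : ℕ) + ((v m).2.1 : ℕ)) ≤ 2 * K * r

lemma card_lightV (K r : ℕ) : (lightV K r).card ≤ (4 ^ K * 8) ^ r := by
  have hhalf : ∀ n : ℕ, ∑ x : Fin n, ((1 : ℝ) / 2) ^ (x : ℕ) ≤ 2 := by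
    intro n
    rw [Fin.sum_univ_eq_sum_range (fun x => ((1 : ℝ) / 2) ^ x) n]
    have := (summable_geometric_two).sum_le_tsum (s := Finset.range n)
      (fun i _ => by positivity)
    rw [tsum_geometric_two] at this
    exact this
  have hone : (∑ c : Fin (2 * K * r + 1) × Fin (2 * K * r + 1) × Fin 2,
      ((1 : ℝ) / 2) ^ ((c.1 : ℕ) + (c.2.1 : ℕ))) ≤ 8 := by
    rw [Fintype.sum_prod_type]
    calc _ = ∑ x : Fin (2 * K * r + 1), ((1 : ℝ) / 2) ^ (x : ℕ) *
          ∑ y : Fin (2 * K * r + 1), (((1 : ℝ) / 2) ^ (y : ℕ) * 2) := by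
          apply Finset.sum_congr rfl
          intro x _
          rw [Fintype.sum_prod_type, Finset.mul_sum]
          apply Finset.sum_congr rfl
          intro y _
          simp only [pow_add, Finset.sum_const, Finset.card_univ, Fintype.card_fin,
            nsmul_eq_mul]
          push_cast
          ring
      _ = (∑ x : Fin (2 * K * r + 1), ((1 : ℝ) / 2) ^ (x : ℕ)) *
          ((∑ y : Fin (2 * K * r + 1), ((1 : ℝ) / 2) ^ (y : ℕ)) * 2) := by
          rw [← Finset.sum_mul, ← Finset.sum_mul]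
      _ ≤ 2 * (2 * 2) := by
          have h0 : 0 ≤ ∑ x : Fin (2 * K * r + 1), ((1 : ℝ) / 2) ^ (x : ℕ) :=
            Finset.sum_nonneg fun _ _ => by positivity
          gcongr
          · exact hhalf _
          · exact hhalf _
      _ = 8 := by norm_num
  have hprod : (∑ v : Vec K r, ∏ m, ((1 : ℝ) / 2) ^ (((v m).1 : ℕ) + ((v m).2.1 : ℕ))) ≤ 8 ^ r := by
    have := Finset.prod_univ_sum (fun _ : Fin r =>
      (Finset.univ : Finset (Fin (2 * K * r + 1) × Fin (2 * K * r + 1) × Fin 2)))
      (fun _ c => ((1 : ℝ) / 2) ^ ((c.1 : ℕ) + (c.2.1 : ℕ)))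
    rw [Fintype.piFinset_univ] at this
    rw [← this]
    calc _ ≤ ∏ _m : Fin r, (8 : ℝ) := by
          apply Finset.prod_le_prod
          · intro m _
            exact Finset.sum_nonneg fun _ _ => by positivity
          · intro m _
            exact hone
      _ = 8 ^ r := by simp
  have hlow : ((lightV K r).card : ℝ) * ((1 : ℝ) / 2) ^ (2 * K * r)
      ≤ ∑ v : Vec K r, ∏ m, ((1 : ℝ) / 2) ^ (((v m).1 : ℕ) + ((v m).2.1 : ℕ)) := by
    calc _ = ∑ v ∈ lightV K r, ((1 : ℝ) / 2) ^ (2 * K * r) := by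
          rw [Finset.sum_const, nsmul_eq_mul]
      _ ≤ ∑ v ∈ lightV K r, ∏ m, ((1 : ℝ) / 2) ^ (((v m).1 : ℕ) + ((v m).2.1 : ℕ)) := by
          apply Finset.sum_le_sum
          intro v hv
          rw [Finset.prod_pow_eq_pow_sum]
          apply pow_le_pow_of_le_one (by norm_num) (by norm_num)
          exact (Finset.mem_filter.mp hv).2
      _ ≤ _ := Finset.sum_le_univ_sum_of_nonneg fun v => Finset.prod_nonneg fun _ _ => by positivity
  have h1 := hlow.trans hprod
  have h2 : ((lightV K r).card : ℝ) ≤ (4 ^ K * 8) ^ r := by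
    have e : ((1 : ℝ) / 2) ^ (2 * K * r) = ((1 / 4) ^ K) ^ r := by
      rw [pow_mul, pow_mul]; norm_num
    rw [e] at h1
    have e2 : (((1 : ℝ) / 4) ^ K) ^ r * (4 ^ K) ^ r = 1 := by
      rw [← mul_pow, ← mul_pow]; norm_num
    calc ((lightV K r).card : ℝ)
        = (lightV K r).card * (((1 / 4) ^ K) ^ r * (4 ^ K) ^ r) := by rw [e2, mul_one]
      _ = ((lightV K r).card * ((1 / 4) ^ K) ^ r) * (4 ^ K) ^ r := by ring
      _ ≤ 8 ^ r * (4 ^ K) ^ r := by gcongr
      _ = (4 ^ K * 8) ^ r := by rw [← mul_pow]; ring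
  exact_mod_cast h2

open Classical in
/-- The code of a user of an edge. -/
noncomputable def code (i : Fin k) (x : ℕ) (j : Fin k) : ℕ :=
  if h : j ∈ G.users i x then ((G.users i x).equivFin ⟨j, h⟩ : ℕ) else 0

variable {G}

lemma code_inj {i : Fin k} {x : ℕ} {j j' : Fin k} (h : j ∈ G.users i x) (h' : j' ∈ G.users i x)
    (he : code G i x j = code G i x j') : j = j' := by
  unfold code at he
  rw [dif_pos h, dif_pos h'] at he
  have := (G.users i x).equivFin.injective (Fin.ext he)
  exact congrArg Subtype.val this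

lemma code_lt {C : ℕ} (hC1 : 1 ≤ C) (hC : ∀ i x, x < G.m i → (G.users i x).card ≤ C)
    (i : Fin k) (x : ℕ) (j : Fin k) : code G i x j < C := by
  unfold code
  split_ifs with h
  · refine lt_of_lt_of_le ((G.users i x).equivFin ⟨j, h⟩).2 (hC i x ?_)
    classical
    simp only [PD.users, Finset.mem_filter, Finset.mem_univ, true_and] at h
    obtain ⟨y, hy⟩ := h
    exact hy.1
  · omega

lemma mem_users {i : Fin k} {x : ℕ} {j : Fin k} {y : ℕ} (h : G.Same i x j y) :
    j ∈ G.users i x := by
  classical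
  simp only [PD.users, Finset.mem_filter, Finset.mem_univ, true_and]
  exact ⟨y, h⟩

/-- The next state is determined by the previous one, the data and the code. -/
lemma GHop.det {s s' s'' : Fin k × ℕ} {b t : ℕ} (h : GHop G s s' b t) (h' : GHop G s s'' b t)
    (hc : code G s.1 (s.2 - b) s'.1 = code G s.1 (s.2 - b) s''.1) : s' = s'' := by
  have h1 := code_inj (mem_users h.same.symm) (mem_users h'.same.symm) hc
  have h2 := h'.same
  rw [← h1] at h2
  have h3 := h.same.symm.unique h2.symm
  have := h.ht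
  have := h'.ht
  exact Prod.ext h1 (by omega)

/-- The previous state is determined by the next one, the data and the code. -/
lemma GHop.det' {s s' s'' : Fin k × ℕ} {b t : ℕ} (h : GHop G s' s b t) (h' : GHop G s'' s b t)
    (hc : code G s.1 (s.2 - t) s'.1 = code G s.1 (s.2 - t) s''.1) : s' = s'' := by
  have h1 := code_inj (mem_users h.same) (mem_users h'.same) hc
  have h2 := h'.same
  rw [← h1] at h2
  have h3 := h.same.unique h2
  have := h.hb
  have := h'.hb
  exact Prod.ext h1 (by omega)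

variable (G)

/-- The chain is geometrically possible. -/
def Geo {D K r : ℕ} (e : Pot k D K r) : Prop :=
  ∀ m : Fin r, GHop G (st (e.2 m.castSucc)) (st (e.2 m.succ)) ((e.1 m).1 : ℕ) ((e.1 m).2.2 : ℕ)

open Classical in
/-- The events. -/
noncomputable def Fam (D K r : ℕ) : Finset (Pot k D K r) :=
  Finset.univ.filter fun e => Geo G e ∧ e.1 ∈ lightV K r ∧ Function.Injective fun m => (e.2 m).1

/-- The set of packets. -/
def pk {D K r : ℕ} (e : Pot k D K r) : Finset (Fin k) := Finset.univ.image fun m => (e.2 m).1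

open Classical in
/-- The events with a given packet. -/
noncomputable def FamP (D K r : ℕ) (p : Fin k) : Finset (Pot k D K r) :=
  (Fam G D K r).filter fun e => p ∈ pk e

lemma card_FamP {C : ℕ} (hC1 : 1 ≤ C) (hC : ∀ i x, x < G.m i → (G.users i x).card ≤ C)
    (D K r : ℕ) (p : Fin k) :
    (FamP G D K r p).card ≤ (r + 1) * (D * ((4 ^ K * 8) ^ r * C ^ r)) := by
  classical
  -- the anchor
  have hanc : ∀ e ∈ FamP G D K r p, ∃ m, (e.2 m).1 = p := by
    intro e he
    obtain ⟨m, _, hm⟩ := Finset.mem_image.mp (Finset.mem_filter.mp he).2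
    exact ⟨m, hm⟩
  let anc : Pot k D K r → Fin (r + 1) := fun e => if h : ∃ m, (e.2 m).1 = p then h.choose else 0
  have hanc' : ∀ e ∈ FamP G D K r p, (e.2 (anc e)).1 = p := by
    intro e he
    have h := hanc e he
    show (e.2 (if h : ∃ m, (e.2 m).1 = p then h.choose else 0)).1 = p
    rw [dif_pos h]
    exact h.choose_spec
  let cd : Pot k D K r → Fin r → Fin C := fun e m =>
    if anc e ≤ m.castSucc then
      ⟨code G (st (e.2 m.castSucc)).1 ((st (e.2 m.castSucc)).2 - ((e.1 m).1 : ℕ))
        (st (e.2 m.succ)).1, code_lt hC1 hC _ _ _⟩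
    else
      ⟨code G (st (e.2 m.succ)).1 ((st (e.2 m.succ)).2 - ((e.1 m).2.2 : ℕ))
        (st (e.2 m.castSucc)).1, code_lt hC1 hC _ _ _⟩
  let Φ : Pot k D K r → Fin (r + 1) × Fin D × Vec K r × (Fin r → Fin C) := fun e =>
    (anc e, (e.2 (anc e)).2, e.1, cd e)
  have hmaps : ∀ e ∈ FamP G D K r p, Φ e ∈ (Finset.univ : Finset (Fin (r + 1))) ×ˢ
      ((Finset.univ : Finset (Fin D)) ×ˢ ((lightV K r) ×ˢ
        (Finset.univ : Finset (Fin r → Fin C)))) := by
    intro e he
    have h1 := (Finset.mem_filter.mp (Finset.mem_filter.mp he).1).2.2.1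
    simp only [Φ, Finset.mem_product, Finset.mem_univ, true_and, and_true]
    exact h1
  have hinj : Set.InjOn Φ (FamP G D K r p : Set (Pot k D K r)) := by
    intro e he e' he' h
    have he1 := hanc' e he
    have he1' := hanc' e' he'
    have hg := (Finset.mem_filter.mp (Finset.mem_filter.mp he).1).2.1
    have hg' := (Finset.mem_filter.mp (Finset.mem_filter.mp he').1).2.1
    have ha : anc e = anc e' := congrArg (fun z => z.1) h
    have hx : (e.2 (anc e)).2 = (e'.2 (anc e')).2 := congrArg (fun z => z.2.1) h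
    have hv : e.1 = e'.1 := congrArg (fun z => z.2.2.1) h
    have hc : cd e = cd e' := congrArg (fun z => z.2.2.2) h
    have h0 : e.2 (anc e) = e'.2 (anc e) := by
      rw [← ha] at hx he1'
      exact Prod.ext (he1.trans he1'.symm) hx
    -- upwards
    have hup : ∀ m : Fin (r + 1), anc e ≤ m → e.2 m = e'.2 m := by
      intro m
      induction m using Fin.induction with
      | zero =>
        intro hle
        have : anc e = 0 := Fin.le_zero_iff.mp hle
        rw [← this]
        exact h0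
      | succ m ih =>
        intro hle
        rcases eq_or_lt_of_le hle with h1 | h1
        · rw [← h1]; exact h0
        · have h2 : anc e ≤ m.castSucc := Fin.le_castSucc_iff.mpr h1
          have h3 := ih h2
          have h4 := congrFun hc m
          have h5 : anc e' ≤ m.castSucc := by rw [← ha]; exact h2
          simp only [cd, if_pos h2, if_pos h5] at h4
          have h6 := congrArg Fin.val h4
          simp only [← h3, ← hv] at h6
          have h7 := hg m
          have h8 := hg' m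
          rw [← h3, ← hv] at h8
          exact st_inj (h7.det h8 h6)
    have hdown : ∀ m : Fin (r + 1), m ≤ anc e → e.2 m = e'.2 m := by
      intro m
      induction m using Fin.reverseInduction with
      | last =>
        intro hle
        have : anc e = Fin.last r := le_antisymm (Fin.le_last _) hle
        rw [← this]
        exact h0
      | cast m ih =>
        intro hle
        rcases eq_or_lt_of_le hle with h1 | h1
        · rw [h1]; exact h0
        · have h2 : ¬ anc e ≤ m.castSucc := not_le.mpr h1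
          have h3 := ih (Fin.castSucc_lt_iff_succ_le.mp h1)
          have h4 := congrFun hc m
          have h5 : ¬ anc e' ≤ m.castSucc := by rw [← ha]; exact h2
          simp only [cd, if_neg h2, if_neg h5] at h4
          have h6 := congrArg Fin.val h4
          simp only [← h3, ← hv] at h6
          have h7 := hg m
          have h8 := hg' m
          rw [← h3, ← hv] at h8
          exact st_inj (h7.det' h8 h6)
    refine Prod.ext hv ?_
    funext m
    rcases le_total (anc e) m with h1 | h1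
    · exact hup m h1
    · exact hdown m h1
  calc (FamP G D K r p).card ≤ _ := Finset.card_le_card_of_injOn Φ hmaps hinj
    _ = (r + 1) * (D * ((lightV K r).card * C ^ r)) := by
        rw [Finset.card_product, Finset.card_product, Finset.card_product]
        simp
    _ ≤ (r + 1) * (D * ((4 ^ K * 8) ^ r * C ^ r)) := by
        gcongr
        exact card_lightV K r

/-- The chain occurs for the phases `φ`. -/
def Occ (ψ : Fin k → ℕ → ℕ) {D K r : ℕ} (e : Pot k D K r) (φ : Fin k → ℕ) : Prop :=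
  ∀ m : Fin r, φ (e.2 m.succ).1 + ψ (e.2 m.succ).1 (((e.2 m.succ).2 : ℕ) - ((e.1 m).2.2 : ℕ))
      + ((e.1 m).2.1 : ℕ)
    = φ (e.2 m.castSucc).1
      + ψ (e.2 m.castSucc).1 (((e.2 m.castSucc).2 : ℕ) - ((e.1 m).1 : ℕ))

variable {ψ : Fin k → ℕ → ℕ}

lemma Occ.det {D K r : ℕ} {e : Pot k D K r} {φ φ' : Fin k → ℕ} (h : Occ ψ e φ)
    (h' : Occ ψ e φ') (h0 : φ (e.2 0).1 = φ' (e.2 0).1) (m : Fin (r + 1)) :
    φ (e.2 m).1 = φ' (e.2 m).1 := by
  induction m using Fin.induction with
  | zero => exact h0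
  | succ m ih =>
    have h1 := h m
    have h2 := h' m
    omega

lemma pr_Occ {D K r S : ℕ} (hS : 1 ≤ S) {e : Pot k D K r}
    (hinj : Function.Injective fun m => (e.2 m).1) :
    Pr (fun ω : (∀ _ : Fin k, Fin S) => Occ ψ e fun i => (ω i : ℕ)) ≤ (1 / (S : ℝ)) ^ r := by
  classical
  have : NeZero S := ⟨by omega⟩
  have hSr : (0 : ℝ) < S := by exact_mod_cast hS
  let J : Fin S → Fin (r + 1) → Finset (Fin S) := fun v m =>
    Finset.univ.filter fun u => ∃ ω : (∀ _ : Fin k, Fin S), Occ ψ e (fun i => (ω i : ℕ)) ∧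
      ω (e.2 0).1 = v ∧ ω (e.2 m).1 = u
  have hJ : ∀ v m, (J v m).card ≤ 1 := by
    intro v m
    rw [Finset.card_le_one]
    intro a ha b hb
    obtain ⟨ω, h1, h2, h3⟩ := (Finset.mem_filter.mp ha).2
    obtain ⟨ω', h1', h2', h3'⟩ := (Finset.mem_filter.mp hb).2
    have := Occ.det h1 h1' (by simp only [h2, h2']) m
    rw [h3, h3'] at this
    exact Fin.ext this
  have hle : Pr (fun ω : (∀ _ : Fin k, Fin S) => Occ ψ e fun i => (ω i : ℕ)) ≤
      ∑ v : Fin S, Ex (fun ω : (∀ _ : Fin k, Fin S) =>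
        ∏ m : Fin (r + 1), if ω (e.2 m).1 ∈ J v m then (1 : ℝ) else 0) := by
    rw [Pr_def, ← Ex_sum]
    apply Ex_mono
    intro ω
    by_cases hE : Occ ψ e fun i => (ω i : ℕ)
    · rw [if_pos hE]
      have hterm : ∏ m : Fin (r + 1), (if ω (e.2 m).1 ∈ J (ω (e.2 0).1) m then (1 : ℝ) else 0)
          = 1 := by
        apply Finset.prod_eq_one
        intro m _
        rw [if_pos]
        simp only [J, Finset.mem_filter, Finset.mem_univ, true_and]
        exact ⟨ω, hE, rfl, rfl⟩
      calc (1 : ℝ) = ∏ m : Fin (r + 1),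
            (if ω (e.2 m).1 ∈ J (ω (e.2 0).1) m then (1 : ℝ) else 0) := hterm.symm
        _ ≤ _ := Finset.single_le_sum
          (f := fun v => ∏ m : Fin (r + 1), (if ω (e.2 m).1 ∈ J v m then (1 : ℝ) else 0))
          (fun v _ => Finset.prod_nonneg fun n _ => by split_ifs <;> norm_num)
          (Finset.mem_univ _)
    · rw [if_neg hE]
      exact Finset.sum_nonneg fun v _ => Finset.prod_nonneg fun n _ => by split_ifs <;> norm_num
  have hexp : ∀ v : Fin S, Ex (fun ω : (∀ _ : Fin k, Fin S) =>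
      ∏ m : Fin (r + 1), if ω (e.2 m).1 ∈ J v m then (1 : ℝ) else 0) ≤ (1 / S) ^ (r + 1) := by
    intro v
    rw [Ex_prod Finset.univ (fun m => {(e.2 m).1})]
    · have hco : ∀ m : Fin (r + 1), Ex (fun ω : (∀ _ : Fin k, Fin S) =>
          if ω (e.2 m).1 ∈ J v m then (1 : ℝ) else 0) = (J v m).card / S := by
        intro m
        rw [Ex_coord (Ω := fun _ : Fin k => Fin S) (e.2 m).1
          (fun a => if a ∈ J v m then (1 : ℝ) else 0)]
        rw [Finset.sum_ite_mem, Finset.univ_inter]
        simp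
      simp only [hco]
      calc _ ≤ ∏ _m : Fin (r + 1), (1 : ℝ) / S := by
            apply Finset.prod_le_prod
            · intro m _; positivity
            · intro m _
              have := hJ v m
              gcongr
              exact_mod_cast this
        _ = (1 / S) ^ (r + 1) := by simp
    · intro m _ m' _ hmm
      rw [Finset.disjoint_singleton]
      intro h
      exact hmm (hinj h)
    · intro m _ ω ω' h
      have := h (e.2 m).1 (Finset.mem_singleton_self _)
      simp only [this]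
  calc _ ≤ ∑ v : Fin S, (1 / (S : ℝ)) ^ (r + 1) :=
        hle.trans (Finset.sum_le_sum fun v _ => hexp v)
    _ = (1 / (S : ℝ)) ^ r := by
        rw [Finset.sum_const, Finset.card_univ, Fintype.card_fin, nsmul_eq_mul, pow_succ]
        field_simp

/-- The choice of the phases. -/
theorem exists_phases {C D E K r : ℕ} (hr : 1 ≤ r) (hC1 : 1 ≤ C) (hD1 : 1 ≤ D)
    (hDE : D ≤ E ^ r) (hC : ∀ i x, x < G.m i → (G.users i x).card ≤ C) :
    ∃ φ : Fin k → ℕ, (∀ i, φ i < 128 * 4 ^ K * (C * E)) ∧ ∀ e ∈ Fam G D K r, ¬ Occ ψ e φ := by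
  classical
  have hE1 : 1 ≤ E := by
    rcases Nat.eq_zero_or_pos E with h | h
    · rw [h, zero_pow (by omega)] at hDE
      omega
    · exact h
  set S := 128 * 4 ^ K * (C * E) with hSdef
  have hS : 1 ≤ S := by
    have : 1 ≤ C * E := Nat.mul_pos hC1 hE1
    exact Nat.mul_pos (by positivity) this
  have : NeZero S := ⟨by omega⟩
  have hSr : (0 : ℝ) < S := by exact_mod_cast hS
  set Q := (r + 1) * (D * ((4 ^ K * 8) ^ r * C ^ r)) with hQ
  have hQ1 : 1 ≤ Q := by
    rw [hQ]
    have : 1 ≤ D * ((4 ^ K * 8) ^ r * C ^ r) :=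
      Nat.mul_pos hD1 (Nat.mul_pos (by positivity) (by positivity))
    exact Nat.mul_pos (by omega) this
  have hdep : ∀ e ∈ Fam G D K r, Dep (pk e)
      (fun ω : (∀ _ : Fin k, Fin S) => Occ ψ e fun i => (ω i : ℕ)) := by
    intro e _ ω ω' h
    have h' : ∀ m, ω (e.2 m).1 = ω' (e.2 m).1 := fun m =>
      h _ (Finset.mem_image.mpr ⟨m, Finset.mem_univ _, rfl⟩)
    simp only [Occ, h']
  have hdeg : ∀ e ∈ Fam G D K r, ∀ Z ⊆ Fam G D K r, (∀ f ∈ Z, ¬ Disjoint (pk e) (pk f)) →
      Z.card ≤ (r + 1) * Q := by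
    intro e _ Z hZ hdis
    have hsub : Z ⊆ (pk e).biUnion fun p => FamP G D K r p := by
      intro f hf
      have h1 := hdis f hf
      rw [Finset.not_disjoint_iff] at h1
      obtain ⟨p, hp1, hp2⟩ := h1
      rw [Finset.mem_biUnion]
      exact ⟨p, hp1, Finset.mem_filter.mpr ⟨hZ hf, hp2⟩⟩
    calc Z.card ≤ ((pk e).biUnion fun p => FamP G D K r p).card := Finset.card_le_card hsub
      _ ≤ (pk e).card * Q := Finset.card_biUnion_le_card_mul _ _ _ fun p _ =>
          card_FamP G hC1 hC D K r p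
      _ ≤ (r + 1) * Q := by
          apply Nat.mul_le_mul_right
          refine Finset.card_image_le.trans ?_
          simp
  have h16 : ∀ q : ℕ, 1 ≤ q → 4 * (q + 1) * (q + 1) ≤ 16 ^ q := by
    intro q hq
    induction q, hq using Nat.le_induction with
    | base => norm_num
    | succ q hq ih =>
      rw [pow_succ]
      nlinarith
  have hnum : 4 * ((r + 1) * Q) ≤ S ^ r := by
    calc 4 * ((r + 1) * Q) = (4 * (r + 1) * (r + 1)) * ((4 ^ K * 8) ^ r * C ^ r) * D := by
          rw [hQ]; ring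
      _ ≤ 16 ^ r * ((4 ^ K * 8) ^ r * C ^ r) * E ^ r :=
          Nat.mul_le_mul (Nat.mul_le_mul_right _ (h16 r hr)) hDE
      _ = S ^ r := by
          rw [hSdef, ← mul_pow, ← mul_pow, ← mul_pow]
          congr 1
          ring
  have hp : ∀ e ∈ Fam G D K r, 4 * (((r + 1) * Q : ℕ) : ℝ) *
      Pr (fun ω : (∀ _ : Fin k, Fin S) => Occ ψ e fun i => (ω i : ℕ)) ≤ 1 := by
    intro e he
    have h1 := pr_Occ (ψ := ψ) (S := S) hS (e := e) (Finset.mem_filter.mp he).2.2.2
    have h2 : 4 * (((r + 1) * Q : ℕ) : ℝ) ≤ (S : ℝ) ^ r := by exact_mod_cast hnum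
    calc _ ≤ (S : ℝ) ^ r * (1 / (S : ℝ)) ^ r :=
          mul_le_mul h2 h1 (Pr_nonneg _) (by positivity)
      _ = 1 := by
          rw [← mul_pow, mul_one_div_cancel hSr.ne', one_pow]
  obtain ⟨ω, hω⟩ := lll (V := Fin k) (Ω := fun _ => Fin S) (Fam G D K r)
    (fun e ω => Occ ψ e fun i => (ω i : ℕ)) pk hdep ((r + 1) * Q)
    (Nat.mul_pos (by omega) hQ1) hdeg hp
  exact ⟨fun i => (ω i : ℕ), fun i => (ω i).2, hω⟩

end Pool.Agent.Lev25
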